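import Pool.Agent.H47.VT.Targets6

/-!
# (SGE) one real L-function (MP_9f0eeb_nt, theorem (V))
-/

set_option autoImplicit false

open Complex MeasureTheory Set Filter Topology

namespace Pool.Agent.H59.VT.SGE

open Pool.Agent.H47.VT
open Pool.Agent.H30.BV (cv DS)
open ComplexConjugate

variable {q : ℕ}

private lemma val_real {χ : DirichletCharacter ℂ q} (h2 : χ ^ 2 = 1) (n : ℕ) :
    cv χ n = ((cv χ n).re : ℂ) := by
  unfold cv
  by_cases hu : IsUnit (n : ZMod q)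
  · have h : χ (n : ZMod q) ^ 2 = 1 := by
      rw [← MulChar.pow_apply' χ two_ne_zero, h2, MulChar.one_apply hu]
    have h3 : χ (n : ZMod q) * χ (n : ZMod q) = 1 := by rw [← sq]; exact h
    rcases mul_self_eq_one_iff.mp h3 with h' | h' <;> rw [h'] <;> simp
  · rw [MulChar.map_nonunit χ hu]; simp

private lemma rv_coe {χ : DirichletCharacter ℂ q} (h2 : χ ^ 2 = 1) {n : ℕ} (hn : n ≠ 0) :
    ((rv χ n : ℝ) : ℂ) = cv χ n := by
  rw [val_real h2 n]
  simp [rv, hn]

private lemma cv_zero {χ : DirichletCharacter ℂ q} (hq : 1 ≤ q) (h1 : χ ≠ 1) : cv χ 0 = 0 := by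
  unfold cv
  apply MulChar.map_nonunit
  intro hu
  have hq1 : q ≠ 1 := by
    rintro rfl
    exact h1 (Subsingleton.elim _ _)
  have : Fact (1 < q) := ⟨by omega⟩
  simp at hu

private lemma sum_eq {χ : DirichletCharacter ℂ q} (hq : 1 ≤ q) (h1 : χ ≠ 1) (N : ℕ) :
    ∑ n ∈ Finset.Icc 1 N, cv χ n = ∑ n ∈ Finset.range (N + 1), cv χ n := by
  rw [Finset.sum_range_succ', cv_zero hq h1, add_zero]
  rw [Finset.range_eq_Ico, Finset.sum_Ico_add' (fun n => cv χ n) 0 N 1]
  rfl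

private lemma sum_rv {χ : DirichletCharacter ℂ q} (h2 : χ ^ 2 = 1) (N : ℕ) :
    ((∑ n ∈ Finset.Icc 1 N, rv χ n : ℝ) : ℂ) = ∑ n ∈ Finset.Icc 1 N, cv χ n := by
  rw [ofReal_sum]
  refine Finset.sum_congr rfl fun n hn => rv_coe h2 ?_
  have := (Finset.mem_Icc.mp hn).1
  omega

private lemma F_le (hCB : Pool.Agent.H30.BV.T_CB) {χ : DirichletCharacter ℂ q} (hq : 1 ≤ q)
    (h1 : χ ≠ 1) (h2 : χ ^ 2 = 1) (N : ℕ) : |∑ n ∈ Finset.Icc 1 N, rv χ n| ≤ q := by
  have h := hCB q χ hq h1 (N + 1)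
  rw [← sum_eq hq h1, ← sum_rv h2, norm_real, Real.norm_eq_abs] at h
  exact h

private lemma F_le' {χ : DirichletCharacter ℂ q} (N : ℕ) :
    |∑ n ∈ Finset.Icc 1 N, rv χ n| ≤ N := by
  refine (Finset.abs_sum_le_sum_abs _ _).trans ?_
  refine (Finset.sum_le_card_nsmul _ _ 1 ?_).trans (by simp)
  intro n hn
  have : n ≠ 0 := by have := (Finset.mem_Icc.mp hn).1; omega
  simp only [rv, ArithmeticFunction.coe_mk, this, if_false]
  exact (abs_re_le_norm _).trans (DirichletCharacter.norm_le_one χ _)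

/-- the integrand -/
private noncomputable def gg (χ : DirichletCharacter ℂ q) (s u : ℝ) : ℝ :=
  (∑ n ∈ Finset.Icc 1 ⌊u⌋₊, rv χ n) * u ^ (-s - 1)

private lemma gg_meas (χ : DirichletCharacter ℂ q) (s : ℝ) :
    AEStronglyMeasurable (gg χ s) (volume.restrict (Ioi (1 : ℝ))) := by
  unfold gg
  apply AEStronglyMeasurable.mul
  · have : Measurable fun u : ℝ => ∑ n ∈ Finset.Icc 1 ⌊u⌋₊, rv χ n :=
      (measurable_from_nat (f := fun N : ℕ => ∑ n ∈ Finset.Icc 1 N, rv χ n)).comp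
        Nat.measurable_floor
    exact this.aestronglyMeasurable
  · refine ContinuousOn.aestronglyMeasurable ?_ measurableSet_Ioi
    intro u hu
    exact (Real.continuousAt_rpow_const _ _
      (Or.inl (by have : (1 : ℝ) < u := hu; linarith))).continuousWithinAt

private lemma gg_bd (hCB : Pool.Agent.H30.BV.T_CB) {χ : DirichletCharacter ℂ q} (hq : 1 ≤ q)
    (h1 : χ ≠ 1) (h2 : χ ^ 2 = 1) {a s u : ℝ} (ha : a ≤ s) (hu : 1 < u) :
    ‖gg χ s u‖ ≤ q * u ^ (-a - 1) := by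
  unfold gg
  rw [norm_mul, Real.norm_eq_abs, Real.norm_eq_abs, abs_of_nonneg (Real.rpow_nonneg
    (by linarith) (-s - 1))]
  exact mul_le_mul (F_le hCB hq h1 h2 _)
    (Real.rpow_le_rpow_of_exponent_le hu.le (by linarith)) (Real.rpow_nonneg (by linarith) _)
    (Nat.cast_nonneg _)

private lemma bd_int (q : ℕ) {a : ℝ} (ha : 0 < a) :
    IntegrableOn (fun u : ℝ => (q : ℝ) * u ^ (-a - 1)) (Ioi 1) :=
  (integrableOn_Ioi_rpow_of_lt (by linarith) one_pos).const_mul _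

private lemma gg_int (hCB : Pool.Agent.H30.BV.T_CB) {χ : DirichletCharacter ℂ q} (hq : 1 ≤ q)
    (h1 : χ ≠ 1) (h2 : χ ^ 2 = 1) {s : ℝ} (hs : 0 < s) : IntegrableOn (gg χ s) (Ioi 1) := by
  refine Integrable.mono' (bd_int q hs) (gg_meas χ s) ?_
  exact (ae_restrict_iff' measurableSet_Ioi).mpr (Eventually.of_forall fun u hu =>
    gg_bd hCB hq h1 h2 le_rfl hu)

private lemma pf_cont (hCB : Pool.Agent.H30.BV.T_CB) {χ : DirichletCharacter ℂ q} (hq : 1 ≤ q)
    (h1 : χ ≠ 1) (h2 : χ ^ 2 = 1) : ContinuousOn (Pf (rv χ)) (Ioi 0) := by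
  intro s₀ hs₀
  have hs₀' : 0 < s₀ := hs₀
  apply ContinuousAt.continuousWithinAt
  have hI : ContinuousAt (fun s => ∫ u in Ioi (1 : ℝ), gg χ s u) s₀ := by
    refine continuousAt_of_dominated (bound := fun u : ℝ => (q : ℝ) * u ^ (-(s₀ / 2) - 1))
      (Eventually.of_forall fun s => gg_meas χ s) ?_ (bd_int q (by linarith)) ?_
    · filter_upwards [Ioi_mem_nhds (show s₀ / 2 < s₀ by linarith)] with s hs
      exact (ae_restrict_iff' measurableSet_Ioi).mpr (Eventually.of_forall fun u hu =>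
        gg_bd hCB hq h1 h2 (le_of_lt hs) hu)
    · refine (ae_restrict_iff' measurableSet_Ioi).mpr (Eventually.of_forall fun u hu => ?_)
      have hu' : (1 : ℝ) < u := hu
      unfold gg
      apply ContinuousAt.mul continuousAt_const
      have : ContinuousAt (fun s : ℝ => (-s - 1 : ℝ)) s₀ := by fun_prop
      exact ContinuousAt.rpow continuousAt_const this (Or.inl (by linarith))
  exact continuousAt_id.mul hI

private lemma lser (hCB : Pool.Agent.H30.BV.T_CB) {χ : DirichletCharacter ℂ q} (hq : 1 ≤ q)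
    (h1 : χ ≠ 1) (h2 : χ ^ 2 = 1) {s : ℝ} (hs : 1 < s) :
    LSeries (cv χ) s = ((Pf (rv χ) s : ℝ) : ℂ) := by
  have : NeZero q := ⟨by omega⟩
  have hO : (fun n => ∑ k ∈ Finset.Icc 1 n, cv χ k) =O[atTop] fun n : ℕ => (n : ℝ) ^ (0 : ℝ) := by
    refine Asymptotics.IsBigO.of_bound (q : ℝ) (Eventually.of_forall fun n => ?_)
    rw [sum_eq hq h1]
    simpa using hCB q χ hq h1 (n + 1)
  have hS : LSeriesSummable (cv χ) (s : ℂ) :=
    DirichletCharacter.LSeriesSummable_of_one_lt_re χ (by simpa using hs)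
  have h := LSeries_eq_mul_integral (cv χ) (r := 0) le_rfl (s := (s : ℂ))
    (by simpa using (by linarith : (0 : ℝ) < s)) hS hO
  rw [h]
  unfold Pf
  rw [ofReal_mul, ← integral_complex_ofReal]
  congr 1
  refine setIntegral_congr_fun measurableSet_Ioi fun u hu => ?_
  have hu' : (1 : ℝ) < u := hu
  show _ = (((∑ n ∈ Finset.Icc 1 ⌊u⌋₊, rv χ n) * u ^ (-s - 1) : ℝ) : ℂ)
  rw [ofReal_mul, sum_rv h2, ofReal_cpow (by linarith)]
  congr 2
  push_cast
  ring

private lemma lpos {χ : DirichletCharacter ℂ q} (hq : 1 ≤ q)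
    (h2 : χ ^ 2 = 1) {s : ℝ} (hs : 1 < s) :
    ∃ x : ℝ, 0 < x ∧ LSeries (cv χ) s = (x : ℂ) := by
  have : NeZero q := ⟨by omega⟩
  have h := DirichletCharacter.LSeries_eulerProduct_exp_log χ (s := (s : ℂ)) (by simpa using hs)
  refine ⟨Real.exp (∑' p : Nat.Primes, -Real.log (1 - (cv χ p).re * (p : ℝ) ^ (-s))),
    Real.exp_pos _, ?_⟩
  have h' : LSeries (cv χ) s = LSeries (fun n : ℕ => χ n) s := rfl
  rw [h', ← h, ofReal_exp, ofReal_tsum]
  congr 1
  refine tsum_congr fun p => ?_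
  have hp : (1 : ℝ) < (p : ℕ) := by exact_mod_cast p.2.one_lt
  have hp1 : ((p : ℕ) : ℝ) ^ (-s) ≤ 1 := Real.rpow_le_one_of_one_le_of_nonpos hp.le (by linarith)
  have hp0 : 0 ≤ ((p : ℕ) : ℝ) ^ (-s) := Real.rpow_nonneg (by linarith) _
  have hx : |(cv χ p).re| ≤ 1 := (abs_re_le_norm _).trans (DirichletCharacter.norm_le_one χ _)
  have hx' := (abs_le.mp hx).2
  rw [ofReal_neg, ofReal_log (by nlinarith)]
  push_cast
  rw [← val_real h2, ofReal_cpow (by linarith)]
  push_cast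
  rfl

private lemma pf_pos (hCB : Pool.Agent.H30.BV.T_CB) {χ : DirichletCharacter ℂ q} (hq : 1 ≤ q)
    (h1 : χ ≠ 1) (h2 : χ ^ 2 = 1) {s : ℝ} (hs : 1 < s) : 0 < Pf (rv χ) s := by
  obtain ⟨x, hx, h⟩ := lpos hq h2 hs
  rw [lser hCB hq h1 h2 hs] at h
  rw [ofReal_inj.mp h]
  exact hx

private lemma pf_one (hCB : Pool.Agent.H30.BV.T_CB) {χ : DirichletCharacter ℂ q} (hq : 1 ≤ q)
    (h1 : χ ≠ 1) (h2 : χ ^ 2 = 1) : 0 < Pf (rv χ) 1 := by
  have : NeZero q := ⟨by omega⟩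
  have hc : Tendsto (Pf (rv χ)) (𝓝[>] 1) (𝓝 (Pf (rv χ) 1)) :=
    ((pf_cont hCB hq h1 h2) 1 (mem_Ioi.mpr one_pos)).mono_left
      (nhdsWithin_mono _ (Ioi_subset_Ioi zero_le_one))
  have hL : Tendsto (fun s : ℝ => DirichletCharacter.LFunction χ (s : ℂ)) (𝓝[>] 1)
      (𝓝 (DirichletCharacter.LFunction χ ((1 : ℝ) : ℂ))) :=
    (((DirichletCharacter.differentiable_LFunction h1).continuous.comp
      continuous_ofReal).tendsto 1).mono_left nhdsWithin_le_nhds
  have hE : ((Pf (rv χ) 1 : ℝ) : ℂ) = DirichletCharacter.LFunction χ ((1 : ℝ) : ℂ) := by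
    refine tendsto_nhds_unique ((continuous_ofReal.tendsto _).comp hc) (hL.congr' ?_)
    filter_upwards [self_mem_nhdsWithin] with s hs
    have hs' : (1 : ℝ) < s := hs
    rw [DirichletCharacter.LFunction_eq_LSeries χ (by simpa using hs')]
    exact lser hCB hq h1 h2 hs'
  have h0 : 0 ≤ Pf (rv χ) 1 := by
    refine ge_of_tendsto hc ?_
    filter_upwards [self_mem_nhdsWithin] with s hs
    exact (pf_pos hCB hq h1 h2 hs).le
  refine lt_of_le_of_ne h0 fun h => ?_
  rw [← h] at hE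
  refine DirichletCharacter.LFunction_apply_one_ne_zero h1 ?_
  rw [ofReal_one, ofReal_zero] at hE
  exact hE.symm

private lemma pf_up (hCB : Pool.Agent.H30.BV.T_CB) {χ : DirichletCharacter ℂ q} (hq : 1 ≤ q)
    (h1 : χ ≠ 1) (h2 : χ ^ 2 = 1) {s : ℝ} (hs : 1 ≤ s) (hs2 : s ≤ 2) :
    Pf (rv χ) s ≤ 4 * Real.log (q + 2) := by
  have hq1 : (1 : ℝ) ≤ q := by exact_mod_cast hq
  have hint := gg_int hCB hq h1 h2 (s := s) (by linarith)
  have hsplit : Ioi (1 : ℝ) = Ioc 1 (q : ℝ) ∪ Ioi (q : ℝ) := (Ioc_union_Ioi_eq_Ioi hq1).symm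
  have hI : ∫ u in Ioi (1 : ℝ), gg χ s u =
      (∫ u in Ioc (1 : ℝ) q, gg χ s u) + ∫ u in Ioi (q : ℝ), gg χ s u := by
    rw [hsplit, setIntegral_union (Set.Ioc_disjoint_Ioi le_rfl) measurableSet_Ioi
      (hint.mono_set (by rw [hsplit]; exact subset_union_left))
      (hint.mono_set (by rw [hsplit]; exact subset_union_right))]
  have hA : ∫ u in Ioc (1 : ℝ) q, gg χ s u ≤ Real.log q := by
    have h3 : ∫ u in Ioc (1 : ℝ) q, gg χ s u ≤ ∫ u in Ioc (1 : ℝ) q, u⁻¹ := by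
      refine setIntegral_mono_on (hint.mono_set (by rw [hsplit]; exact subset_union_left)) ?_
        measurableSet_Ioc ?_
      · rw [← intervalIntegrable_iff_integrableOn_Ioc_of_le hq1]
        apply intervalIntegral.intervalIntegrable_inv (fun u hu => ?_) (by fun_prop)
        rw [uIcc_of_le hq1] at hu
        have := hu.1
        positivity
      · intro u hu
        have hu1 : (1 : ℝ) < u := hu.1
        have h4 : ∑ n ∈ Finset.Icc 1 ⌊u⌋₊, rv χ n ≤ u :=
          (le_abs_self _).trans ((F_le' _).trans (Nat.floor_le (by linarith)))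
        have h5 : u ^ (-s - 1) ≤ u ^ (-2 : ℝ) :=
          Real.rpow_le_rpow_of_exponent_le hu1.le (by linarith)
        have h6 : 0 < u ^ (-s - 1) := Real.rpow_pos_of_pos (by linarith) _
        calc gg χ s u ≤ u * u ^ (-s - 1) := mul_le_mul_of_nonneg_right h4 h6.le
          _ ≤ u * u ^ (-2 : ℝ) := mul_le_mul_of_nonneg_left h5 (by linarith)
          _ = u⁻¹ := by
            rw [← Real.rpow_neg_one u]
            nth_rewrite 1 [← Real.rpow_one u]
            rw [← Real.rpow_add (by linarith)]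
            norm_num
    refine h3.trans ?_
    rw [← intervalIntegral.integral_of_le hq1, integral_inv_of_pos one_pos (by linarith), div_one]
  have hB : ∫ u in Ioi (q : ℝ), gg χ s u ≤ 1 := by
    have hi2 : IntegrableOn (fun u : ℝ => (q : ℝ) * u ^ (-2 : ℝ)) (Ioi (q : ℝ)) :=
      (integrableOn_Ioi_rpow_of_lt (by norm_num) (by linarith)).const_mul _
    have h3 : ∫ u in Ioi (q : ℝ), gg χ s u ≤ ∫ u in Ioi (q : ℝ), (q : ℝ) * u ^ (-2 : ℝ) := by
      refine setIntegral_mono_on (hint.mono_set (by rw [hsplit]; exact subset_union_right)) hi2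
        measurableSet_Ioi ?_
      intro u hu
      have hu1 : (1 : ℝ) < u := lt_of_le_of_lt hq1 hu
      have h4 := gg_bd hCB hq h1 h2 hs hu1
      refine (le_abs_self _).trans (h4.trans (le_of_eq ?_))
      norm_num
    refine h3.trans (le_of_eq ?_)
    rw [integral_const_mul, integral_Ioi_rpow_of_lt (by norm_num) (by linarith)]
    have hq0 : (q : ℝ) ≠ 0 := by positivity
    norm_num
    rw [Real.rpow_neg_one]
    field_simp
  have hP : Pf (rv χ) s = s * ∫ u in Ioi (1 : ℝ), gg χ s u := rfl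
  have hlog : Real.log q ≤ Real.log (q + 2) := Real.log_le_log (by linarith) (by linarith)
  have hlog0 : 0 ≤ Real.log q := Real.log_nonneg hq1
  have hlog1 : 1 ≤ Real.log (q + 2) := by
    rw [Real.le_log_iff_exp_le (by linarith)]
    have := Real.exp_one_lt_d9
    linarith
  have hII : ∫ u in Ioi (1 : ℝ), gg χ s u ≤ 2 * Real.log (q + 2) := by rw [hI]; linarith
  rw [hP]
  nlinarith

theorem pf_SGE (hCB : Pool.Agent.H30.BV.T_CB) : T_SGE := by
  refine ⟨4, by norm_num, fun q χ hq h1 h2 => ⟨pf_cont hCB hq h1 h2, fun s hs hs2 => ?_,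
    fun s hs => ?_, fun s hs hs2 => pf_up hCB hq h1 h2 hs hs2⟩⟩
  · have h : DS (cv χ) 0 s = LSeries (cv χ) s := by
      unfold DS
      simp
    rw [h, lser hCB hq h1 h2 hs, norm_real, Real.norm_eq_abs,
      abs_of_pos (pf_pos hCB hq h1 h2 hs)]
  · rcases hs.eq_or_lt with h | h
    · rw [← h]; exact pf_one hCB hq h1 h2
    · exact pf_pos hCB hq h1 h2 h

end Pool.Agent.H59.VT.SGE
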